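import Mathlib
import Pool.Agent.H3.JFlip

set_option autoImplicit false

namespace Pool.Agent.Results.MP_1e5ebc_co.ExactTop

open Pool.Agent.H3.Flip

theorem result (b r : ℕ) (hb : 3 ≤ b) (hbr : b < r) (hr : r + 1 = (b + 1).choose 2) :
    (∀ (n : ℕ) (B R : SimpleGraph (Fin n)), 1 ≤ n → IsFlip B R b r → (r + 1) * (b + 1) ≤ n) ∧
    (∃ (V : Type) (_ : Fintype V) (B R : SimpleGraph V),
      Fintype.card V = (r + 1) * (b + 1) ∧ IsFlip B R b r) :=
  ⟨fun n B R hn h => ((Pool.Agent.H3.JFlip.joined b r hb hbr).1 n B R hn h).2.2 hr, (Pool.Agent.H3.JFlip.joined b r hb hbr).2 (by omega)⟩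

end Pool.Agent.Results.MP_1e5ebc_co.ExactTop
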