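import Mathlib
import Pool.Agent.H3.JFlip

set_option autoImplicit false

namespace Pool.Agent.Results.MP_1e5ebc_co.LowerCherry

open Pool.Agent.H3.Flip

theorem result (b r : ℕ) (hb : 3 ≤ b) (hbr : b < r) (n : ℕ) (B R : SimpleGraph (Fin n))
    (hn : 1 ≤ n) (h : IsFlip B R b r) : ((b : ℤ) + r + 1) * (2 * r - b) + 2 ≤ n * r :=
  ((Pool.Agent.H3.JFlip.joined b r hb hbr).1 n B R hn h).1

end Pool.Agent.Results.MP_1e5ebc_co.LowerCherry
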