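import Mathlib
import Pool.Agent.H3.JFlip

set_option autoImplicit false

namespace Pool.Agent.Results.MP_1e5ebc_co.Upper

open Pool.Agent.H3.Flip

theorem result (b r : ℕ) (hb : 3 ≤ b) (hbr : b < r) (hr : r < (b + 1).choose 2) :
    ∃ (V : Type) (_ : Fintype V) (B R : SimpleGraph V),
      Fintype.card V = (r + 1) * (b + 1) ∧ IsFlip B R b r :=
  (Pool.Agent.H3.JFlip.joined b r hb hbr).2 hr

end Pool.Agent.Results.MP_1e5ebc_co.Upper
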